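import Pool.Agent.L0h7.KL.Mono
import Pool.Agent.Y577.BT.R

set_option autoImplicit false

/-!
# Horrocks' bounds for the modules `N / I L`

Let `S` be the polynomial ring over a field `k` in `m = n + 1` variables `x_j`, let `N` be a finitely
generated `S`-module which is faithful (that is, of positive rank; for example, free), `L` a submodule
and `I` an ideal of `S` such that `M = N / I L` has finite dimension and the variables are nilpotent on
`M`. Then every resolution `F` of `M` by finite free modules has `rank F_i ≥ m.choose i` for all `i`,
if one of the following holds.

* `I` is a monomial ideal, integrally closed and proper (for example a power of the ideal generated by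
  the variables).
* After a permutation `σ` of the variables, there is, for every set `J` of variables not containing
  the last one, an element `g` such that `x g ∈ I` for all `x ∈ J` and `g` is not integral over `I`
  modulo the ideal generated by the variables outside `J` different from the last one (for example
  `I = (x_1, …, x_(m - 2), x_(m - 1) ^ a, x_m ^ c)`).

For example, all the rings `S / I J` with `I` as above and `J` an arbitrary ideal containing powers of
the variables satisfy the bounds.
-/

namespace Pool.Agent.Results.MP_e2ce73_al.IntegrallyClosedMultiples

open Pool.Agent.L0h7.KL Pool.Agent.Y577.BT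

universe u v w

/-- **The result.** -/
theorem result (k : Type u) [Field k] (S : Type v) [CommRing S] [Algebra k S] (n : ℕ)
    (x : Fin (n + 1) → S) (hx : PolyVars k x) (I : Ideal S)
    (h : (IsMono x I ∧ IntClosed I ∧ I ≠ ⊤) ∨ ∃ σ, Adapted x I σ)
    (N : Type w) [AddCommGroup N] [Module S N] [Module.Finite S N] [FaithfulSMul S N]
    (L : Submodule S N)
    (M : Type w) [AddCommGroup M] [Module k M] [FiniteDimensional k M] [Module S M]
    [IsScalarTower k S M] (hnil : ∀ j, ∃ a : ℕ, ∀ z : M, x j ^ a • z = 0)
    (π : N →ₗ[S] M) (hπ : Function.Surjective π) (hker : LinearMap.ker π = I • L)
    (R : FreeRes S M) (i : ℕ) :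
    (n + 1).choose i ≤ R.rank i :=
  quot_main k x hx I h N L M hnil π hπ hker R.F R.d R.ε R.surjective R.exact_zero R.exact_succ i

end Pool.Agent.Results.MP_e2ce73_al.IntegrallyClosedMultiples
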