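import Pool.Agent.L0h23.GP.D

/-!
# Horrocks' bounds for graded modules with a linear form all of whose strings are long

Let `f_1, …, f_m` be a regular sequence in the `k`-algebra `S` with `S = k + (f)`, for example the
variables (or any basis of the linear forms) of a polynomial ring over the field `k`, let `M` be a
nonzero `S`-module of finite dimension over `k` on which the `f_j` are nilpotent, and let `x = f_m`.

(1) Let `m ≤ 5`, and let `M` be graded by the integers, `f_j` of degree `δ_j ≤ s` for `j < m`. If, for
some `d`, every element of degree larger than `d` is in `x M` and `x` is injective on the pieces of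
degree at most `d + 2 s - δ_m`, then every resolution `F` of `M` by finite free modules has
`rank F_i ≥ m.choose i`. If all degrees are one, the condition is that `x : M_a → M_(a+1)` is onto for
`a ≥ d` and one-to-one for `a ≤ d + 1`; in other words, all strings (Jordan blocks) of `x` contain the
three degrees `d`, `d + 1`, `d + 2`. (`m = 5` is the first open case of Horrocks' conjecture.)

Examples (not formalised here): `M = E / E'` with a graded Cohen-Macaulay module `E` of dimension one (such as the
coordinate ring of a finite set of points in `P^4`), a linear form `x` which is injective on `E`,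
`E / x E` in degrees at most `d`, and an arbitrary graded submodule `E'` of finite codimension in
degrees at least `d + 3`.

(2) For any `m`, and without a grading, the same bounds hold if the tuple of the operators `f_j` on
`M` is in the class `Str`. It contains the class `Hor` of the starting files and is closed under
permutations of the operators, duality, the passage from `r ≤ m` operators to `m` elements of the
ideal generated by them, and the new rule `gap`: `(V, x_1, …, x_m, x)` is in the class if
`(V / x V, x_1, …, x_m)` and `(ker x, x_1, …, x_m)` are in the class and there are subspaces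
`U, D, W, T` of `V` with `V = U + x V`, `x_j U ⊆ D`, `D ∩ x V ⊆ x W`, `x_j W ⊆ T`, `T ∩ ker x = 0`.

(3) In particular, graded tuples with long strings (`Long`, any number of operators) are in the
class if the tuples on `V / x V` and on `ker x` are.

Proof. The Koszul homology of `M` is related by a long exact sequence to the one of `M / x M` and the
one of `ker x` with respect to `f_1, …, f_(m-1)`. The connecting map vanishes: a cycle of `M / x M`
lifts to a chain `z` with coefficients in `U`, `d z = x w` with coefficients of `w` in `W`, and `d w`,
which is killed by `x`, has coefficients in `T`, so it is zero. Hence the Betti numbers satisfy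
`β_i(M) = β_i(M / x M) + β_(i-1)(ker x)`, and one may use the bounds for `m - 1` operators.
-/

set_option autoImplicit false

namespace Pool.Agent.Results.MP_e2ce73_al.LongStrings

open Pool.Agent.R767.ZC Pool.Agent.L0h23.GP

/-- `f` is a regular sequence in `S`, and `S = k + (f)`. -/
structure Params (k S : Type) [Field k] [CommRing S] [Algebra k S] {m : ℕ} (f : Fin m → S) :
    Prop where
  reg : ∀ (l : Fin m) (s : S), f l * s ∈ Ideal.span (f '' Set.Iio l) →
    s ∈ Ideal.span (f '' Set.Iio l)
  res : ∀ s : S, ∃ c : k, s - algebraMap k S c ∈ Ideal.span (Set.range f)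

/-- Every resolution of `M` by finite free `S`-modules has `rank F_i ≥ m.choose i` for all `i`. -/
def Horrocks (S M : Type) [CommRing S] [AddCommGroup M] [Module S M] (m : ℕ) : Prop :=
  ∀ (F : ℕ → Type) [∀ i, AddCommGroup (F i)] [∀ i, Module S (F i)]
    [∀ i, Module.Free S (F i)] [∀ i, Module.Finite S (F i)]
    (d : ∀ i, F (i + 1) →ₗ[S] F i) (ε : F 0 →ₗ[S] M), Function.Surjective ε →
    LinearMap.range (d 0) = LinearMap.ker ε →
    (∀ i, LinearMap.range (d (i + 1)) = LinearMap.ker (d i)) →
    ∀ i : ℕ, m.choose i ≤ Module.finrank S (F i)

/-- the operators on `M` -/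
def ops (k M : Type) {S : Type} [Field k] [CommRing S] [Algebra k S] [AddCommGroup M] [Module k M]
    [Module S M] [IsScalarTower k S M] {m : ℕ} (f : Fin m → S) : Fin m → Module.End k M :=
  fun j => Algebra.lsmul k k M (f j)

/-- **The result.** -/
theorem result :
    (∀ (k S M : Type) [Field k] [CommRing S] [Algebra k S] [AddCommGroup M] [Module k M]
      [Module S M] [IsScalarTower k S M] (n : ℕ) (f : Fin (n + 1) → S), n ≤ 4 → Params k S f →
      NilTuple (n + 1) k M (ops k M f) →
      ∀ (ℳ : ℤ → Submodule k M) (deg : Fin (n + 1) → ℤ) (d s : ℤ),
        Long (ops k M f) ℳ deg d s → Horrocks S M (n + 1)) ∧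
    (∀ (k S M : Type) [Field k] [CommRing S] [Algebra k S] [AddCommGroup M] [Module k M]
      [Module S M] [IsScalarTower k S M] (m : ℕ) (f : Fin m → S), Params k S f →
      Str m k M (ops k M f) → Horrocks S M m) ∧
    (∀ (K V : Type) [Field K] [AddCommGroup V] [Module K V] (m : ℕ)
      (w : Fin (m + 1) → Module.End K V) (hw : NilTuple (m + 1) K V w) (ℳ : ℤ → Submodule K V)
      (deg : Fin (m + 1) → ℤ) (d s : ℤ), Long w ℳ deg d s →
      Str m K _ (cokOps w hw.comm) → Str m K _ (kerOps w hw.comm) → Str (m + 1) K V w) := by
  refine ⟨?_, ?_, ?_⟩
  · intro k S M _ _ _ _ _ _ _ n f hn hf hw ℳ deg d s hl F _ _ _ _ dF ε hε hd0 hd i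
    exact hb_rank k S (n + 1) f hf.reg hf.res M (hl.hb hn hw) F dF ε hε hd0 hd i
  · intro k S M _ _ _ _ _ _ _ m f hf h F _ _ _ _ dF ε hε hd0 hd i
    exact hb_rank k S m f hf.reg hf.res M h.main F dF ε hε hd0 hd i
  · intro K V _ _ _ m w hw ℳ deg d s hl hC hA
    exact hl.str hw hC hA

end Pool.Agent.Results.MP_e2ce73_al.LongStrings
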