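import Pool.Agent.L0h64.QV.All

set_option autoImplicit false

/-!
# Horrocks' inequality for equivariant modules over the generic matrix ring

Let `k` be a field with an embedding in `ℂ`, for example `k = ℚ`, and let `A = k[X_{ac}]` be the polynomial ring in the
entries of a generic `n × p` matrix. We prove that every resolution of `M` by finite free modules has
`rank F_i ≥ binom(n p, i)` for all `i`, for the following modules `M` over `A`:

1. `M = A / I` for an ideal `I ≠ A` of finite colength which is invariant under all invertible row and column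
operations over `k`, that is, under the substitutions `X ↦ g X h` with invertible matrices `g` and `h`.

2. Equivariant modules: `M ≠ 0` of finite dimension over `k` such that the group `U(n) × U(p)` acts continuously on the
complex extension `M'` of `M`, compatibly with its action on the matrix of the variables.

3. `M ≠ 0` of finite dimension such that on the complex extension `M'` there are a Hermitian inner product and operators
`E a b` (`a`, `b` rows) and `E' c d` (`c`, `d` columns) such that the adjoint of `E a b` is `E b a`, the commutator of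
`E a b` with `X_{a'c}` is `X_{ac}` for `a' = b` and zero otherwise, and the same for the columns (the infinitesimal form
of 2, without relations between the operators `E a b`, `E' c d`).

Part 1 uses the Fischer inner product on polynomials, for which the derivation `∑_c X_{ac} ∂ / ∂ X_{bc}` is adjoint
to `∑_c X_{bc} ∂ / ∂ X_{ac}`, part 2 the invariant inner product.
-/

namespace Pool.Agent.Results.MP_e2ce73_al.MatrixSymmetry

open MvPolynomial Pool.Agent.Y577.BT Pool.Agent.L0h64.HM Pool.Agent.L0h64.EQ Pool.Agent.L0h64.QV

universe v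

theorem result (k : Type) [Field k] [Algebra k ℂ] (n p : ℕ) :
    (∀ I : Ideal (MvPolynomial (Fin n × Fin p) k), I ≠ ⊤ →
      Module.Finite k (MvPolynomial (Fin n × Fin p) k ⧸ I) → RowColInv I →
      ∀ (R : FreeRes (MvPolynomial (Fin n × Fin p) k) (MvPolynomial (Fin n × Fin p) k ⧸ I)) (i : ℕ),
        (n * p).choose i ≤ R.rank i) ∧
    (∀ (M M' : Type v) [AddCommGroup M] [Module k M] [Module (MvPolynomial (Fin n × Fin p) k) M]
      [IsScalarTower k (MvPolynomial (Fin n × Fin p) k) M] [Nontrivial M]
      [AddCommGroup M'] [Module ℂ M'] [Module (MvPolynomial (Fin n × Fin p) ℂ) M']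
      [IsScalarTower ℂ (MvPolynomial (Fin n × Fin p) ℂ) M'] (j : M → M'),
      IsExtension (k := k) (σ := Fin n × Fin p) j →
      ∀ ρ : Matrix.unitaryGroup (Fin n) ℂ × Matrix.unitaryGroup (Fin p) ℂ →* (M' →ₗ[ℂ] M'),
      MatrixAction (fun a c => (X (a, c) : MvPolynomial (Fin n × Fin p) ℂ)) M' ρ →
      ∀ (R : FreeRes (MvPolynomial (Fin n × Fin p) k) M) (i : ℕ), (n * p).choose i ≤ R.rank i) ∧
    ∀ (M M' : Type v) [AddCommGroup M] [Module k M] [Module (MvPolynomial (Fin n × Fin p) k) M]
      [IsScalarTower k (MvPolynomial (Fin n × Fin p) k) M] [Nontrivial M]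
      [NormedAddCommGroup M'] [InnerProductSpace ℂ M'] [Module (MvPolynomial (Fin n × Fin p) ℂ) M']
      [IsScalarTower ℂ (MvPolynomial (Fin n × Fin p) ℂ) M'] (j : M → M'),
      IsExtension (k := k) (σ := Fin n × Fin p) j →
      ∀ (E : Fin n → Fin n → M' →ₗ[ℂ] M') (E' : Fin p → Fin p → M' →ₗ[ℂ] M'),
      MatrixUnits (fun a c => (X (a, c) : MvPolynomial (Fin n × Fin p) ℂ)) M' E →
      MatrixUnits (fun c a => (X (a, c) : MvPolynomial (Fin n × Fin p) ℂ)) M' E' →
      ∀ (R : FreeRes (MvPolynomial (Fin n × Fin p) k) M) (i : ℕ), (n * p).choose i ≤ R.rank i :=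
  ⟨fun I hI hfin hinv R i => ideal_rect t_BC t_FLAT t_FDM t_INVR k n p I hI hfin hinv R i,
    fun M M' _ _ _ _ _ _ _ _ _ j hj ρ hρ R i => module_rect t_BC t_FLAT t_CX k n p M M' j hj ρ hρ R i,
    fun M M' _ _ _ _ _ _ _ _ _ j hj E E' hE hE' R i =>
      units_rect t_BC t_FLAT t_CX k n p M M' j hj E E' hE hE' R i⟩

end Pool.Agent.Results.MP_e2ce73_al.MatrixSymmetry
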