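import Pool.Agent.L0h64.QV.All

set_option autoImplicit false

/-!
# Horrocks' inequality for equivariant modules over the generic symmetric and skew-symmetric matrix rings

Let `k` be a field with an embedding in `ℂ`, for example `k = ℚ`, let `τ = 1` or `τ = -1` and let `A` be the polynomial
ring over `k` in the `m = N (N + τ) / 2` entries `X_{ac}`, `a ≤ c`, of a generic symmetric (`τ = 1`) or `X_{ac}`, `a < c`,
of a generic skew-symmetric (`τ = -1`) `N × N` matrix. We prove that every resolution of `M` by finite free modules has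
`rank F_i ≥ binom(m, i)` for all `i`, for the following modules `M` over `A`:

1. `M = A / I` for an ideal `I ≠ A` of finite colength which is invariant under the substitutions `X ↦ g X gᵀ` with
invertible matrices `g` over `k`.

2. Equivariant modules: `M ≠ 0` of finite dimension over `k` such that the group `U(N)` acts continuously on the complex
extension `M'` of `M`, compatibly with its action on the matrix of the variables.

3. `M ≠ 0` of finite dimension such that on the complex extension `M'` there are a Hermitian inner product and operators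
`E a b` such that the adjoint of `E a b` is `E b a` and the commutator of `E a b` with the entry `X_{yd}` is
`δ_{y b} X_{a d} + δ_{d b} X_{y a}` (the infinitesimal form of 2, without relations between the operators `E a b`).
-/

namespace Pool.Agent.Results.MP_e2ce73_al.SymmetricMatrices

open MvPolynomial Pool.Agent.Y577.BT Pool.Agent.L0h64.EQ Pool.Agent.L0h64.QV
open Pool.Agent.L0h64.MX (TensorUnits)

universe v

theorem result (k : Type) [Field k] [Algebra k ℂ] (N : ℕ) (τ : ℤ) (hτ : τ = 1 ∨ τ = -1) :
    ∃ m : ℕ, m = Fintype.card (Pos N τ) ∧ (m : ℤ) = N * (N + τ) / 2 ∧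
    (∀ I : Ideal (MvPolynomial (Pos N τ) k), I ≠ ⊤ →
      Module.Finite k (MvPolynomial (Pos N τ) k ⧸ I) → CongrInv I →
      ∀ (R : FreeRes (MvPolynomial (Pos N τ) k) (MvPolynomial (Pos N τ) k ⧸ I)) (i : ℕ),
        m.choose i ≤ R.rank i) ∧
    (∀ (M M' : Type v) [AddCommGroup M] [Module k M] [Module (MvPolynomial (Pos N τ) k) M]
      [IsScalarTower k (MvPolynomial (Pos N τ) k) M] [Nontrivial M]
      [AddCommGroup M'] [Module ℂ M'] [Module (MvPolynomial (Pos N τ) ℂ) M']
      [IsScalarTower ℂ (MvPolynomial (Pos N τ) ℂ) M'] (j : M → M'),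
      IsExtension (k := k) (σ := Pos N τ) j →
      ∀ ρ : Matrix.unitaryGroup (Fin N) ℂ →* (M' →ₗ[ℂ] M'), TensorAction (entry ℂ N τ) M' ρ →
      ∀ (R : FreeRes (MvPolynomial (Pos N τ) k) M) (i : ℕ), m.choose i ≤ R.rank i) ∧
    ∀ (M M' : Type v) [AddCommGroup M] [Module k M] [Module (MvPolynomial (Pos N τ) k) M]
      [IsScalarTower k (MvPolynomial (Pos N τ) k) M] [Nontrivial M]
      [NormedAddCommGroup M'] [InnerProductSpace ℂ M'] [Module (MvPolynomial (Pos N τ) ℂ) M']
      [IsScalarTower ℂ (MvPolynomial (Pos N τ) ℂ) M'] (j : M → M'),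
      IsExtension (k := k) (σ := Pos N τ) j →
      ∀ E : Fin N → Fin N → M' →ₗ[ℂ] M', TensorUnits (entry ℂ N τ) M' E →
      ∀ (R : FreeRes (MvPolynomial (Pos N τ) k) M) (i : ℕ), m.choose i ≤ R.rank i :=
  ⟨_, rfl, Pool.Agent.L0h64.MX.card_pos N τ hτ,
    fun I hI hfin hinv R i => ideal_sym t_BC t_FLAT t_FDM t_INVS k N τ hτ I hI hfin hinv R i,
    fun M M' _ _ _ _ _ _ _ _ _ j hj ρ hρ R i =>
      module_sym t_BC t_FLAT t_CX k N τ hτ M M' j hj ρ hρ R i,
    fun M M' _ _ _ _ _ _ _ _ _ j hj E hE R i =>
      units_sym t_BC t_FLAT t_CX k N τ hτ M M' j hj E hE R i⟩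

end Pool.Agent.Results.MP_e2ce73_al.SymmetricMatrices
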